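import Pool.Agent.NBT.StmtsF
import Pool.Agent.Helper27_NTS.NNG

/-!
# NBT squad (MP_e54c4c_gt), row DMC: a box triangle needs codimension three
-/

set_option autoImplicit false

open Matrix Filter Topology

namespace Pool.Agent.NBT.H67

open Pool.Agent.PFS Pool.Agent.PFJ Pool.Agent.NBT

variable {n K : ℕ}

/-- the combinations of the vertices in `I` -/
def comb (w : Fin K → V n) (I : Finset (Fin K)) : Submodule ℝ (V n) where
  carrier := {v | ∃ a : Fin K → ℝ, v = ∑ m ∈ I, a m • w m}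
  add_mem' := by
    rintro x y ⟨a, rfl⟩ ⟨b, rfl⟩
    refine ⟨fun m => a m + b m, ?_⟩
    rw [← Finset.sum_add_distrib]
    exact Finset.sum_congr rfl fun m _ => (add_smul _ _ _).symm
  zero_mem' := ⟨fun _ => 0, by simp⟩
  smul_mem' := by
    rintro r x ⟨a, rfl⟩
    refine ⟨fun m => r * a m, ?_⟩
    rw [Finset.smul_sum]
    exact Finset.sum_congr rfl fun m _ => smul_smul _ _ _

theorem comb_ib {C : Set (V n)} {Γ : Subgroup (GL (Fin n) ℝ)} (hC : CC C Γ)
    {w : Fin K → V n} (hw : IsPES C Γ w) (I : Finset (Fin K)) : IB C w I (comb w I) := by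
  refine ⟨?_, ?_⟩
  · intro i hi
    refine ⟨fun m => if m = i then 1 else 0, ?_⟩
    simp only [ite_smul, one_smul, zero_smul]
    rw [Finset.sum_ite_eq' I i w, if_pos hi]
  · rintro v ⟨a, rfl⟩ hv
    have hsum : ∑ m, (if m ∈ I then a m else 1) • w m = ∑ m ∈ I, a m • w m + fS w Iᶜ := by
      rw [← Finset.sum_add_sum_compl I]
      congr 1
      · exact Finset.sum_congr rfl fun m hm => by rw [if_pos hm]
      · unfold fS
        refine Finset.sum_congr rfl fun m hm => ?_
        rw [if_neg (Finset.mem_compl.mp hm), one_smul]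
    rw [← hsum] at hv
    have hn := Pool.Agent.NTS.H27.nng n C hC.toPCone (Fin K) w hw.1
      (fun m => if m ∈ I then a m else 1) hv
    refine hC.toPCone.cl_sum (fun m hm => ?_)
    have h1 := hn m
    simp only [if_pos hm] at h1
    exact hC.toPCone.cl_smul (hC.hul.lamCl _ (hw.2 m)) h1

/-- a subspace of dimension at least three is not contained in the span of two vectors -/
theorem exists_out {L : Submodule ℝ (V n)} (hL : 3 ≤ Module.finrank ℝ L) (x y : V n) :
    ∃ u ∈ L, ∀ a b : ℝ, u ≠ a • x + b • y := by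
  by_contra hcon
  have h1 : L ≤ Submodule.span ℝ {x, y} := by
    intro u hu
    by_contra hu2
    apply hcon
    refine ⟨u, hu, fun a b hab => hu2 ?_⟩
    rw [Submodule.mem_span_pair]
    exact ⟨a, b, hab.symm⟩
  have h2 := Submodule.finrank_mono h1
  have h3 : Module.finrank ℝ (Submodule.span ℝ ({x, y} : Set (V n))) ≤ 2 := by
    classical
    have h4 := finrank_span_finset_le_card (R := ℝ) ({x, y} : Finset (V n))
    have h5 : (({x, y} : Finset (V n)) : Set (V n)) = {x, y} := by push_cast; rfl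
    unfold Set.finrank at h4
    rw [h5] at h4
    exact h4.trans Finset.card_le_two
  omega

/-- the projection to the pair `a, b` maps the pair `b, e` to multiples of `w b` -/
theorem proj_mult (hTbf : TbfStmt) (hPjf : PjfStmt) {C : Set (V n)}
    {Γ Γ₀ : Subgroup (GL (Fin n) ℝ)} {T : (Fin K → V n) → Prop} {c : Finset (Fin K) → ℕ}
    (hTB : TB C Γ Γ₀ T c) {w : Fin K → V n} (hw : T w) {a b e : Fin K} (hab : a ≠ b)
    (hbe : b ≠ e) (hae : a ≠ e) {p : V n →ₗ[ℝ] V n} (hp : PrI C w {a, b} p) {y : V n}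
    (hy : y ∈ BI C w {b, e}) : ∃ t : ℝ, p y = t • w b := by
  obtain ⟨f1, f2, -, -, -, f6, -, f8, -⟩ := hTbf n C Γ Γ₀ K T c hTB w hw
  obtain ⟨g1, -⟩ := hPjf n C Γ Γ₀ K T c hTB w hw {a, b} p hp
  have hpe : p (w e) = 0 := by
    refine g1 e ?_
    simp only [Finset.mem_insert, Finset.mem_singleton, not_or]
    exact ⟨hae.symm, hbe.symm⟩
  have hpb : p (w b) = w b := by
    refine hp.idB _ ((f6 b {a, b}).mpr ?_)
    simp
  obtain ⟨-, -, hun⟩ := f1 {b, e}
  have hfS : fS w {b, e} = w b + w e := by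
    unfold fS
    exact Finset.sum_pair hbe
  rw [hfS] at hun
  obtain ⟨M, -, hM⟩ := hun y hy
  obtain ⟨M', -, hM'⟩ := hun (-y) (Submodule.neg_mem _ hy)
  have h1 := hp.pos _ hM
  have h2 := hp.pos _ hM'
  rw [map_sub, map_smul, map_add, hpb, hpe, add_zero] at h1
  rw [map_sub, map_smul, map_add, hpb, hpe, add_zero, map_neg, sub_neg_eq_add] at h2
  have h3 : M' • w b + p y ∈ BI C w {b} := by
    refine f2 {b} _ h2 (M + M') ?_
    have hf : fS w {b} = w b := by
      unfold fS
      exact Finset.sum_singleton _ _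
    rw [hf, add_smul]
    have h4 : M • w b + M' • w b - (M' • w b + p y) = M • w b - p y := by abel
    rw [h4]
    exact h1
  obtain ⟨t, ht⟩ := f8 b _ h3
  refine ⟨t - M', ?_⟩
  rw [sub_smul, ← ht]
  abel

/-- the coefficient of the third vector of the pair `a, b` vanishes -/
theorem coef_zero (hTbf : TbfStmt) (hPje : PjeStmt) (hPjf : PjfStmt) {C : Set (V n)}
    {Γ Γ₀ : Subgroup (GL (Fin n) ℝ)} {T : (Fin K → V n) → Prop} {c : Finset (Fin K) → ℕ}
    (hTB : TB C Γ Γ₀ T c) {w : Fin K → V n} (hw : T w) {a b e : Fin K} (hab : a ≠ b)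
    (hbe : b ≠ e) (hae : a ≠ e) {u u' u'' : V n} (hu : u ∈ BI C w {a, b})
    (hu' : u' ∈ BI C w {b, e}) (hu'' : u'' ∈ BI C w {a, e})
    (hout : ∀ s t : ℝ, u ≠ s • w a + t • w b) {β : Fin K → ℝ} {x y z : ℝ}
    (h0 : ∑ m, β m • w m + x • u + y • u' + z • u'' = 0) : x = 0 := by
  obtain ⟨p, hp⟩ := hPje n C Γ Γ₀ K T c hTB w hw {a, b}
  obtain ⟨-, -, -, -, -, f6, -⟩ := hTbf n C Γ Γ₀ K T c hTB w hw
  obtain ⟨g1, -⟩ := hPjf n C Γ Γ₀ K T c hTB w hw {a, b} p hp
  obtain ⟨t', ht'⟩ := proj_mult hTbf hPjf hTB hw hab hbe hae hp hu'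
  have hp2 : PrI C w {b, a} p := by rw [Finset.pair_comm]; exact hp
  obtain ⟨t'', ht''⟩ := proj_mult hTbf hPjf hTB hw hab.symm hae hbe hp2 hu''
  have hpa : p (w a) = w a := hp.idB _ ((f6 a {a, b}).mpr (by simp))
  have hpb : p (w b) = w b := hp.idB _ ((f6 b {a, b}).mpr (by simp))
  have hsum : p (∑ m, β m • w m) = β a • w a + β b • w b := by
    rw [map_sum, ← Finset.sum_subset (Finset.subset_univ ({a, b} : Finset (Fin K)))
      (fun m _ hm => by rw [map_smul, g1 m hm, smul_zero]), Finset.sum_pair hab, map_smul,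
      map_smul, hpa, hpb]
  have h1 := congrArg p h0
  rw [map_add, map_add, map_add, hsum, map_smul, map_smul, map_smul, map_zero, hp.idB u hu,
    ht', ht''] at h1
  by_contra hx
  refine hout (-x⁻¹ * (β a + z * t'')) (-x⁻¹ * (β b + y * t')) ?_
  have h2 : x • u = -((β a + z * t'') • w a + (β b + y * t') • w b) := by
    rw [eq_neg_iff_add_eq_zero, ← h1]
    simp only [add_smul, mul_smul]
    abel
  have h3 : u = x⁻¹ • (x • u) := by rw [smul_smul, inv_mul_cancel₀ hx, one_smul]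
  rw [h3, h2, smul_neg, smul_add, smul_smul, smul_smul, neg_mul, neg_mul, neg_smul, neg_smul,
    ← neg_add]

theorem dmc (hTbe : TbeStmt) (hTbf : TbfStmt) (hPje : PjeStmt) (hPjf : PjfStmt)
    (hFms : FmsStmt) : DmcStmt := by
  intro n C Γ K hC h3 hmax hn w0 hw0 i j l hT
  obtain ⟨hij, hjl, hil, ⟨L1, hL1, d1⟩, ⟨L2, hL2, d2⟩, ⟨L3, hL3, d3⟩⟩ := hT
  have hF := hFms n C Γ K hC 0 (fun q => q.elim0) (fun q => q.elim0) (fun q => q.elim0)
  obtain ⟨T, c, hTB, -, hTF, ⟨w, hw⟩, hc⟩ := hTbe n C Γ _ K hC h3 hmax _ hF w0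
    (fun I => if I = {i, j} ∨ I = {j, l} ∨ I = {i, l} then 3 else 0)
    ⟨hw0, fun q => q.elim0⟩ (by
      intro I
      by_cases h1 : I = {i, j}
      · exact ⟨L1, by rw [h1]; exact hL1, by rw [if_pos (Or.inl h1)]; exact d1⟩
      · by_cases h2 : I = {j, l}
        · exact ⟨L2, by rw [h2]; exact hL2, by rw [if_pos (Or.inr (Or.inl h2))]; exact d2⟩
        · by_cases h4 : I = {i, l}
          · exact ⟨L3, by rw [h4]; exact hL3, by rw [if_pos (Or.inr (Or.inr h4))]; exact d3⟩
          · refine ⟨comb w0 I, comb_ib hC hw0 I, ?_⟩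
            rw [if_neg (by
              rintro (h | h | h)
              · exact h1 h
              · exact h2 h
              · exact h4 h)]
            exact Nat.zero_le _)
  have e1 : 3 ≤ Module.finrank ℝ (BI C w {i, j}) := by
    rw [hTB.dim w hw]
    have h := hc {i, j}
    rw [if_pos (Or.inl rfl)] at h
    exact h
  have e2 : 3 ≤ Module.finrank ℝ (BI C w {j, l}) := by
    rw [hTB.dim w hw]
    have h := hc {j, l}
    rw [if_pos (Or.inr (Or.inl rfl))] at h
    exact h
  have e3 : 3 ≤ Module.finrank ℝ (BI C w {i, l}) := by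
    rw [hTB.dim w hw]
    have h := hc {i, l}
    rw [if_pos (Or.inr (Or.inr rfl))] at h
    exact h
  obtain ⟨u1, hu1, ho1⟩ := exists_out e1 (w i) (w j)
  obtain ⟨u2, hu2, ho2⟩ := exists_out e2 (w j) (w l)
  obtain ⟨u3, hu3, ho3⟩ := exists_out e3 (w i) (w l)
  have hlin : LinearIndependent ℝ w :=
    Pool.Agent.PFS.H60.lin n C hC.toPCone (Fin K) w (hTB.pes w hw).1
  rw [Fintype.linearIndependent_iff] at hlin
  have hu3' : u3 ∈ BI C w {l, i} := by rw [Finset.pair_comm]; exact hu3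
  have hu1' : u1 ∈ BI C w {j, i} := by rw [Finset.pair_comm]; exact hu1
  have hu2' : u2 ∈ BI C w {l, j} := by rw [Finset.pair_comm]; exact hu2
  let Φ : ((Fin K → ℝ) × ℝ × ℝ × ℝ) →ₗ[ℝ] V n :=
    { toFun := fun q => ∑ m, q.1 m • w m + q.2.1 • u1 + q.2.2.1 • u2 + q.2.2.2 • u3
      map_add' := by
        intro q q'
        simp only [Prod.fst_add, Prod.snd_add, Pi.add_apply, add_smul, Finset.sum_add_distrib]
        abel
      map_smul' := by
        intro r q
        simp only [Prod.smul_fst, Prod.smul_snd, Pi.smul_apply, smul_eq_mul, mul_smul,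
          RingHom.id_apply, smul_add, Finset.smul_sum] }
  have hinj : Function.Injective Φ := by
    rw [← LinearMap.ker_eq_bot, LinearMap.ker_eq_bot']
    rintro ⟨β, x, y, z⟩ hq
    have h0 : ∑ m, β m • w m + x • u1 + y • u2 + z • u3 = 0 := hq
    have hx : x = 0 :=
      coef_zero hTbf hPje hPjf hTB hw hij hjl hil hu1 hu2 hu3 ho1 h0
    have h0' : ∑ m, β m • w m + y • u2 + z • u3 + x • u1 = 0 := by
      rw [← h0]; abel
    have hy : y = 0 :=
      coef_zero hTbf hPje hPjf hTB hw hjl hil.symm hij.symm hu2 hu3' hu1' ho2 h0'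
    have h0'' : ∑ m, β m • w m + z • u3 + y • u2 + x • u1 = 0 := by
      rw [← h0]; abel
    have hz : z = 0 :=
      coef_zero hTbf hPje hPjf hTB hw hil hjl.symm hij hu3 hu2' hu1 ho3 h0''
    rw [hx, hy, hz, zero_smul, zero_smul, zero_smul, add_zero, add_zero, add_zero] at h0
    have hβ : β = 0 := funext (hlin β h0)
    rw [hβ, hx, hy, hz]
    rfl
  have hfin := LinearMap.finrank_le_finrank_of_injective hinj
  rw [Module.finrank_prod, Module.finrank_prod, Module.finrank_prod, Module.finrank_self,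
    Module.finrank_fintype_fun_eq_card, Fintype.card_fin] at hfin
  have hV : Module.finrank ℝ (V n) = n := by
    change Module.finrank ℝ (Fin n → ℝ) = n
    rw [Module.finrank_fintype_fun_eq_card, Fintype.card_fin]
  rw [hV] at hfin
  omega

end Pool.Agent.NBT.H67
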