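import Pool.Agent.NBT.StmtsM

/-!
# NBT squad (MP_e54c4c_gt), row RGA: a set which is not rigid has an arrow leaving it
-/

set_option autoImplicit false

open Matrix Filter Topology

namespace Pool.Agent.NBT.H67

open Pool.Agent.PFS Pool.Agent.PFJ Pool.Agent.NBT

theorem rga (hFlw : FlwStmt) (hLoc : LocStmt) (hSxn : SxnStmt) : RgaStmt := by
  intro n C Γ Γ₀ K T c hTB hM hne S hS
  obtain ⟨w, hw⟩ := hne
  obtain ⟨W, W', hSP, -, ⟨i, hiS, hi⟩, -⟩ :=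
    hFlw n C Γ Γ₀ K T c hTB hM S hS 1 one_pos w hw
  obtain ⟨U, y, hU, hMv, hout, -, -⟩ := hLoc n C Γ Γ₀ K T c hTB S W W' hSP i hiS hi
  obtain ⟨⟨r, hr⟩, -, -⟩ := hSxn n C Γ Γ₀ K T c hTB U hU i y hMv
  exact ⟨i, hiS, r, hout r hr, U, y, hU, hMv, hr⟩

end Pool.Agent.NBT.H67
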